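import Mathlib
import Pool.Agent.X191.RL.Main

/-!
# MP_446dfa_ag: the motivic group is all of GT, or small in it for a positive proportion

Let `grt w` be the part of weight `w` of Drinfeld's Lie algebra `grt_1`, the Lie algebra of the prounipotent radical of the
graded version of the Grothendieck-Teichmüller group: the Lie polynomials `ψ(x, y)` of degree `w` with
`ψ(x, y) = -ψ(y, x)`, `ψ(z, x) + ψ(y, z) + ψ(x, y) = 0` and `[y, ψ(x, y)] + [z, ψ(x, z)] = 0` for `x + y + z = 0`, and the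
pentagon relation in the Lie algebra of infinitesimal pure braids with four strands. The monomorphism of `G_π` into the
Grothendieck-Teichmüller group identifies the Lie algebra of the unipotent radical of `G_π` (after the choice of a rational
associator, and passage to the graded Lie algebras) with a graded subspace `m = ⊕ m w` of `grt_1 = ⊕ grt w`, and it is
known that `m` is a free Lie algebra with one generator in each odd weight `≥ 3`; the question is whether `m w = grt w` for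
all `w`.

Let `u n` be the dimension of the part of weight `n` of the universal enveloping algebra of `grt_1`, that is, of the
coordinate ring of the group `GRT_1`; let `f n` be the same number for `m`, with generating function
`1 / (1 - x ^ 3 - x ^ 5 - x ^ 7 - ⋯)`, the number of linearly independent motivic multiple zeta values of weight `n` modulo
`ζ(2)`. Let `ρ = 1.3247…` be the root of `ρ ^ 3 = ρ + 1`. Let `m w` be any subspaces of the `grt w` with the dimensions of
this free Lie algebra.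

Theorem.
* The ratio `u n / f n` converges, to `S = ∏ (1 - ρ ^ (-w)) ^ (-(dim grt w - dim m w)) ∈ [1, ∞]`.
* If `m k ≠ grt k`, then `u n ≥ f n + f (n - k) + f (n - 2 k) + …` for all `n` and `S ≥ 1 / (1 - ρ ^ (-k))`.
* Hence `m w = grt w` for all `w` if and only if `S = 1`, if and only if for each `ε > 0` there are arbitrarily large `n`
  with `u n ≤ (1 + ε) f n`, if and only if `u n = f n` for infinitely many `n`; and `u n = f n` for one `n` implies
  `m w = grt w` for all `w ≤ n - 5`.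

The proof uses the power series in `Pool/Agent/X191/RL` (helper191), written for the double shuffle Lie algebra.
-/

set_option autoImplicit false

open Finset Filter Topology
open scoped ENNReal

namespace Pool.Agent.Results.MP_446dfa_ag.RatioLaw

/-- the free Lie algebra on `x, y` -/
abbrev F := FreeLieAlgebra ℚ (Fin 2)

/-- `ψ(a, b)` -/
noncomputable def at₂ {L : Type} [LieRing L] [LieAlgebra ℚ L] (ψ : F) (a b : L) : L :=
  FreeLieAlgebra.lift ℚ ![a, b] ψ

/-- the part of degree `w` of the free Lie algebra: the span of the `[x_1, [x_2, [..., x_w]]]`, where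
each `x_i` is `x` or `y` -/
noncomputable def deg : ℕ → Submodule ℚ F
  | 0 => ⊥
  | 1 => Submodule.span ℚ (Set.range (FreeLieAlgebra.of ℚ))
  | w + 2 => ⨆ i : Fin 2, (deg (w + 1)).map (LieAlgebra.ad ℚ F (FreeLieAlgebra.of ℚ i) : F →ₗ[ℚ] F)

/-- Drinfeld's relations -/
structure IsGRT (ψ : F) : Prop where
  antisymm : ∀ (L : Type) [LieRing L] [LieAlgebra ℚ L] (a b : L), at₂ ψ a b = -at₂ ψ b a
  hexagon : ∀ (L : Type) [LieRing L] [LieAlgebra ℚ L] (a b c : L), a + b + c = 0 →
    at₂ ψ c a + at₂ ψ b c + at₂ ψ a b = 0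
  hexagon' : ∀ (L : Type) [LieRing L] [LieAlgebra ℚ L] (a b c : L), a + b + c = 0 →
    ⁅b, at₂ ψ a b⁆ + ⁅c, at₂ ψ a c⁆ = 0
  /-- the pentagon for all elements `t i j` that satisfy the infinitesimal braid relations with four
  strands, numbered by `0, 1, 2, 3` -/
  pentagon : ∀ (L : Type) [LieRing L] [LieAlgebra ℚ L] (t : Fin 4 → Fin 4 → L),
    (∀ i j, t i j = t j i) →
    (∀ i j k l, i ≠ j → i ≠ k → i ≠ l → j ≠ k → j ≠ l → k ≠ l → ⁅t i j, t k l⁆ = 0) →
    (∀ i j k, i ≠ j → i ≠ k → j ≠ k → ⁅t i j + t i k, t j k⁆ = 0) →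
    at₂ ψ (t 0 1) (t 1 2 + t 1 3) + at₂ ψ (t 0 2 + t 1 2) (t 2 3) =
      at₂ ψ (t 1 2) (t 2 3) + at₂ ψ (t 0 1 + t 0 2) (t 1 3 + t 2 3) + at₂ ψ (t 0 1) (t 1 2)

lemma at₂_add {L : Type} [LieRing L] [LieAlgebra ℚ L] (ψ φ : F) (a b : L) :
    at₂ (ψ + φ) a b = at₂ ψ a b + at₂ φ a b := map_add _ _ _

lemma at₂_smul {L : Type} [LieRing L] [LieAlgebra ℚ L] (c : ℚ) (ψ : F) (a b : L) :
    at₂ (c • ψ) a b = c • at₂ ψ a b := map_smul _ _ _

lemma at₂_zero {L : Type} [LieRing L] [LieAlgebra ℚ L] (a b : L) : at₂ (0 : F) a b = 0 :=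
  map_zero _

/-- the part of weight `w` of `grt_1` -/
noncomputable def grt (w : ℕ) : Submodule ℚ F where
  carrier := {ψ | ψ ∈ deg w ∧ IsGRT ψ}
  add_mem' := by
    rintro ψ φ ⟨h1, h2⟩ ⟨h3, h4⟩
    refine ⟨Submodule.add_mem _ h1 h3, ⟨?_, ?_, ?_, ?_⟩⟩
    · intro L _ _ a b
      rw [at₂_add, at₂_add, h2.antisymm L a b, h4.antisymm L a b, neg_add]
    · intro L _ _ a b c h
      rw [at₂_add, at₂_add, at₂_add]
      have e1 := h2.hexagon L a b c h
      have e2 := h4.hexagon L a b c h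
      calc _ = (at₂ ψ c a + at₂ ψ b c + at₂ ψ a b) + (at₂ φ c a + at₂ φ b c + at₂ φ a b) := by abel
        _ = 0 := by rw [e1, e2, add_zero]
    · intro L _ _ a b c h
      rw [at₂_add, at₂_add, lie_add, lie_add]
      have e1 := h2.hexagon' L a b c h
      have e2 := h4.hexagon' L a b c h
      calc _ = (⁅b, at₂ ψ a b⁆ + ⁅c, at₂ ψ a c⁆) + (⁅b, at₂ φ a b⁆ + ⁅c, at₂ φ a c⁆) := by abel
        _ = 0 := by rw [e1, e2, add_zero]
    · intro L _ _ t ht1 ht2 ht3
      simp only [at₂_add]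
      have e1 := h2.pentagon L t ht1 ht2 ht3
      have e2 := h4.pentagon L t ht1 ht2 ht3
      calc _ = (at₂ ψ (t 0 1) (t 1 2 + t 1 3) + at₂ ψ (t 0 2 + t 1 2) (t 2 3)) +
            (at₂ φ (t 0 1) (t 1 2 + t 1 3) + at₂ φ (t 0 2 + t 1 2) (t 2 3)) := by abel
        _ = _ := by rw [e1, e2]; abel
  zero_mem' := by
    refine ⟨Submodule.zero_mem _, ⟨?_, ?_, ?_, ?_⟩⟩
    · intro L _ _ a b
      rw [at₂_zero, at₂_zero, neg_zero]
    · intro L _ _ a b c _
      simp only [at₂_zero, add_zero]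
    · intro L _ _ a b c _
      simp only [at₂_zero, add_zero, lie_zero]
    · intro L _ _ t _ _ _
      simp only [at₂_zero, add_zero]
  smul_mem' := by
    rintro r ψ ⟨h1, h2⟩
    refine ⟨Submodule.smul_mem _ _ h1, ⟨?_, ?_, ?_, ?_⟩⟩
    · intro L _ _ a b
      rw [at₂_smul, at₂_smul, h2.antisymm L a b, smul_neg]
    · intro L _ _ a b c h
      rw [at₂_smul, at₂_smul, at₂_smul, ← smul_add, ← smul_add, h2.hexagon L a b c h, smul_zero]
    · intro L _ _ a b c h
      rw [at₂_smul, at₂_smul, lie_smul, lie_smul, ← smul_add, h2.hexagon' L a b c h, smul_zero]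
    · intro L _ _ t ht1 ht2 ht3
      simp only [at₂_smul, ← smul_add]
      rw [h2.pentagon L t ht1 ht2 ht3]

/-- The coefficient of `x ^ n` in the product of the `(1 - x ^ w) ^ (-D w)`, `w ≥ 1` (the factors with `w > n` do not
matter): for the dimensions `D w` of a graded Lie algebra this is the dimension of the part of weight `n` of its
universal enveloping algebra. -/
noncomputable def enveloping (D : ℕ → ℕ) (n : ℕ) : ℕ :=
  PowerSeries.coeff n (∏ w ∈ Icc 1 n, (PowerSeries.mk fun k => if w ∣ k then 1 else 0) ^ D w)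

/-- The coefficients of `1 / (1 - x ^ 3 - x ^ 5 - x ^ 7 - ⋯)`. -/
def free : ℕ → ℕ
  | 0 => 1
  | 1 => 0
  | 2 => 0
  | (n + 3) => free (n + 1) + free n

/-- The subspaces `m w` of the spaces `grt w` have the dimensions of the free Lie algebra on `s₃, s₅, s₇, …`. -/
def IsMotivic (m : ℕ → Submodule ℚ F) : Prop :=
  (∀ w, m w ≤ grt w) ∧ ∀ n, enveloping (fun w => Module.finrank ℚ (m w)) n = free n

theorem deg_finite : ∀ w, Module.Finite ℚ (deg w)
  | 0 => by
    rw [deg]
    infer_instance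
  | 1 => by
    rw [deg]
    exact Module.Finite.span_of_finite ℚ (Set.finite_range _)
  | w + 2 => by
    rw [deg]
    have := deg_finite (w + 1)
    infer_instance

theorem grt_finite (w : ℕ) : Module.Finite ℚ (grt w) := by
  have := deg_finite w
  exact Submodule.finiteDimensional_of_le (S₂ := deg w) fun ψ h => h.1

theorem enveloping_eq (D : ℕ → ℕ) (n : ℕ) : enveloping D n = Pool.Agent.X191.RL.U D n := rfl

theorem free_eq (n : ℕ) : free n = Pool.Agent.X191.RL.free n := by
  induction n using Nat.strong_induction_on with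
  | _ n ih =>
    match n with
    | 0 => rfl
    | 1 => rfl
    | 2 => rfl
    | n + 3 => rw [free, Pool.Agent.X191.RL.free, ih (n + 1) (by omega), ih n (by omega)]

/-- the general statement -/
theorem ratio (D l : ℕ → ℕ) (hl : ∀ n, enveloping l n = free n) (h : ∀ w, 1 ≤ w → l w ≤ D w)
    (ρ : ℝ) (hρ1 : 1 < ρ) (hρ : ρ ^ 3 = ρ + 1) :
    ∃ S : ℝ≥0∞,
      Tendsto (fun n => (enveloping D n : ℝ≥0∞) / (free n : ℝ≥0∞)) atTop (𝓝 S) ∧
      S = ⨆ N, ∏ w ∈ Icc 1 N, ((1 - ENNReal.ofReal (1 / ρ) ^ w)⁻¹) ^ (D w - l w) ∧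
      (∀ k, 1 ≤ k → l k < D k →
        (1 - ENNReal.ofReal (1 / ρ) ^ k)⁻¹ ≤ S ∧
        ∀ n, ∑ j ∈ range (n / k + 1), free (n - j * k) ≤ enveloping D n) ∧
      (∀ n, enveloping D n = free n → ∀ w, 1 ≤ w → w + 5 ≤ n → D w = l w) ∧
      ((∀ w, 1 ≤ w → D w = l w) ↔ S = 1) ∧
      ((∀ w, 1 ≤ w → D w = l w) ↔ ∀ ε : ℝ, 0 < ε → ∀ n₀ : ℕ, ∃ n, n₀ ≤ n ∧
        (enveloping D n : ℝ) ≤ (1 + ε) * free n) ∧
      ((∀ w, 1 ≤ w → D w = l w) ↔ ∀ n₀ : ℕ, ∃ n, n₀ ≤ n ∧ enveloping D n = free n) := by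
  have hU : ∀ n, Pool.Agent.X191.RL.U l n = Pool.Agent.X191.RL.free n := fun n => by
    rw [← free_eq]; exact hl n
  have hff : free = Pool.Agent.X191.RL.free := funext free_eq
  rw [hff]
  have h' : ∀ w, 1 ≤ w → l w ≤ D w := h
  have hlim := Pool.Agent.X191.RL.ratio hU h' hρ1 hρ
  set S := ⨆ N, ∏ w ∈ Icc 1 N, ((1 - ENNReal.ofReal (1 / ρ) ^ w)⁻¹) ^ (D w - l w) with hS
  have hr0 : (0 : ℝ) < 1 / ρ := by positivity
  have hbig : ∀ m, 1 ≤ m → l m < D m → 1 < S := by
    intro m hm hlt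
    refine lt_of_lt_of_le ?_ (Pool.Agent.X191.RL.sup_ge hm hlt)
    rw [ENNReal.one_lt_inv]
    refine ENNReal.sub_lt_self ENNReal.one_ne_top one_ne_zero ?_
    exact pow_ne_zero _ (by simpa using hr0)
  have hQS : (∀ w, 1 ≤ w → D w = l w) ↔ S = 1 := by
    constructor
    · intro hQ
      have : ∀ N, ∏ w ∈ Icc 1 N, ((1 - ENNReal.ofReal (1 / ρ) ^ w)⁻¹) ^ (D w - l w) = 1 := fun N =>
        prod_eq_one fun w hw => by
          have : D w = l w := hQ w (mem_Icc.1 hw).1
          rw [this, Nat.sub_self, pow_zero]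
      rw [hS]
      simp_rw [this]
      exact iSup_const
    · intro hS1 w hw
      by_contra hne
      have hlt : l w < D w := lt_of_le_of_ne (h w hw) (Ne.symm hne)
      exact absurd hS1 (hbig w hw hlt).ne'
  have hQD : (∀ w, 1 ≤ w → D w = l w) → ∀ n, enveloping D n = Pool.Agent.X191.RL.free n := by
    intro hQ n
    rw [← hU n, enveloping_eq]
    unfold Pool.Agent.X191.RL.U Pool.Agent.X191.RL.P
    congr 1
    exact prod_congr rfl fun w hw => by rw [show D w = l w from hQ w (mem_Icc.1 hw).1]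
  have hone : ∀ n, enveloping D n = Pool.Agent.X191.RL.free n → ∀ w, 1 ≤ w → w + 5 ≤ n → D w = l w := by
    intro n hn w hw hwn
    exact Pool.Agent.X191.RL.one_weight hU h' hn hw (by omega) (Pool.Agent.X191.RL.free_pos (by omega)).ne'
  refine ⟨S, hlim, rfl, fun m hm hlt => ⟨Pool.Agent.X191.RL.sup_ge hm hlt, fun n =>
    Pool.Agent.X191.RL.sum_le hU h' hm hlt n⟩, hone, hQS, ?_, ?_⟩
  · constructor
    · intro hQ ε hε n₀
      refine ⟨n₀, le_rfl, ?_⟩
      rw [hQD hQ]
      have : (0 : ℝ) ≤ Pool.Agent.X191.RL.free n₀ := Nat.cast_nonneg _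
      nlinarith
    · intro hh
      rw [hQS]
      by_contra hne
      have hlt : 1 < S := by
        by_contra hle
        apply hne
        refine hQS.1 fun w hw => ?_
        by_contra hne2
        exact hle (hbig w hw (lt_of_le_of_ne (h w hw) (Ne.symm hne2)))
      obtain ⟨t, ht1, ht2⟩ := exists_between hlt
      have htt : t ≠ ∞ := (lt_of_lt_of_le ht2 le_top).ne
      have hev := hlim.eventually (lt_mem_nhds ht2)
      obtain ⟨n₁, hn₁⟩ := eventually_atTop.1 hev
      have ht3 : 1 < t.toReal := by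
        rw [← ENNReal.toReal_one]
        exact (ENNReal.toReal_lt_toReal ENNReal.one_ne_top htt).2 ht1
      obtain ⟨n, hn, hle⟩ := hh (t.toReal - 1) (by linarith) (n₁ + 5)
      have h4 := hn₁ n (by omega)
      have hfp : 0 < Pool.Agent.X191.RL.free n := Pool.Agent.X191.RL.free_pos (by omega)
      rw [ENNReal.lt_div_iff_mul_lt (Or.inl (by exact_mod_cast hfp.ne')) (Or.inl (ENNReal.natCast_ne_top _))] at h4
      have h5 : t * (Pool.Agent.X191.RL.free n : ℝ≥0∞) = ENNReal.ofReal (t.toReal * Pool.Agent.X191.RL.free n) := by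
        rw [ENNReal.ofReal_mul ENNReal.toReal_nonneg, ENNReal.ofReal_toReal htt, ENNReal.ofReal_natCast]
      rw [h5, ← ENNReal.ofReal_natCast, ENNReal.ofReal_lt_ofReal_iff_of_nonneg (by positivity)] at h4
      have h6 : (1 + (t.toReal - 1)) * (Pool.Agent.X191.RL.free n : ℝ) = t.toReal * Pool.Agent.X191.RL.free n := by ring
      rw [h6] at hle
      exact absurd h4 (not_lt.2 hle)
  · constructor
    · intro hQ n₀
      exact ⟨n₀, le_rfl, hQD hQ n₀⟩
    · intro hh w hw
      obtain ⟨n, hn, he⟩ := hh (w + 5)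
      exact hone n he w hw hn

/-- **The motivic group is all of GT, or small in it for a positive proportion.** Let `m w ≤ grt w` be subspaces with
the dimensions of the free Lie algebra on `s₃, s₅, s₇, …`, for example the parts of the Lie algebra of the unipotent
radical of `G_π`. -/
theorem result (m : ℕ → Submodule ℚ F) (hm : IsMotivic m) (ρ : ℝ) (hρ1 : 1 < ρ) (hρ : ρ ^ 3 = ρ + 1) :
    (∀ w, Module.Finite ℚ (grt w)) ∧
    ∃ S : ℝ≥0∞,
      -- the ratio of the dimensions converges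
      Tendsto (fun n => (enveloping (fun w => Module.finrank ℚ (grt w)) n : ℝ≥0∞) / (free n : ℝ≥0∞)) atTop (𝓝 S) ∧
      S = ⨆ N, ∏ w ∈ Icc 1 N, ((1 - ENNReal.ofReal (1 / ρ) ^ w)⁻¹) ^
        (Module.finrank ℚ (grt w) - Module.finrank ℚ (m w)) ∧
      -- one additional element of weight `k`
      (∀ k, m k ≠ grt k →
        (1 - ENNReal.ofReal (1 / ρ) ^ k)⁻¹ ≤ S ∧
        ∀ n, ∑ j ∈ range (n / k + 1), free (n - j * k) ≤
          enveloping (fun w => Module.finrank ℚ (grt w)) n) ∧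
      -- one weight decides all smaller weights
      (∀ n, enveloping (fun w => Module.finrank ℚ (grt w)) n = free n → ∀ w, w + 5 ≤ n → m w = grt w) ∧
      -- the conjecture
      ((∀ w, m w = grt w) ↔ S = 1) ∧
      ((∀ w, m w = grt w) ↔ ∀ ε : ℝ, 0 < ε → ∀ n₀ : ℕ, ∃ n, n₀ ≤ n ∧
        (enveloping (fun w => Module.finrank ℚ (grt w)) n : ℝ) ≤ (1 + ε) * free n) ∧
      ((∀ w, m w = grt w) ↔ ∀ n₀ : ℕ, ∃ n, n₀ ≤ n ∧
        enveloping (fun w => Module.finrank ℚ (grt w)) n = free n) := by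
  have hf := grt_finite
  have hle : ∀ w, Module.finrank ℚ (m w) ≤ Module.finrank ℚ (grt w) := fun w =>
    Submodule.finrank_mono (hm.1 w)
  have hz : ∀ w, w = 0 → m w = grt w := by
    rintro w rfl
    have h1 : grt 0 = ⊥ := by
      rw [eq_bot_iff]
      intro ψ h
      have := h.1
      rwa [deg] at this
    rw [h1, eq_bot_iff, ← h1]
    exact hm.1 0
  have heq : ∀ w, m w = grt w ↔ (1 ≤ w → Module.finrank ℚ (grt w) = Module.finrank ℚ (m w)) := by
    intro w
    constructor
    · intro h _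
      rw [h]
    · intro h
      rcases Nat.eq_zero_or_pos w with h0 | h0
      · exact hz w h0
      · exact Submodule.eq_of_le_of_finrank_eq (hm.1 w) (h h0).symm
  have hall : (∀ w, m w = grt w) ↔
      ∀ w, 1 ≤ w → Module.finrank ℚ (grt w) = Module.finrank ℚ (m w) := forall_congr' heq
  obtain ⟨S, h1, h2, h3, h4, h5, h6, h7⟩ := ratio (fun w => Module.finrank ℚ (grt w))
    (fun w => Module.finrank ℚ (m w)) hm.2 (fun w _ => hle w) ρ hρ1 hρ
  refine ⟨hf, S, h1, h2, fun k hk => ?_, fun n hn w hw => ?_, ?_, ?_, ?_⟩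
  · have hk1 : 1 ≤ k := by
      rcases Nat.eq_zero_or_pos k with h0 | h0
      · exact absurd (hz k h0) hk
      · exact h0
    refine h3 k hk1 (lt_of_le_of_ne (hle k) fun h => hk ?_)
    exact (heq k).2 fun _ => h.symm
  · exact (heq w).2 fun hw1 => h4 n hn w hw1 hw
  · rw [hall]
    exact h5
  · rw [hall]
    exact h6
  · rw [hall]
    exact h7

end Pool.Agent.Results.MP_446dfa_ag.RatioLaw
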